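import Pool.Agent.Q278.El.Core
import Pool.Agent.Q278.El.TaskFin
import Pool.Agent.Q278.El.TaskLow
import Pool.Agent.Q278.El.TaskRun

/-! MP_3b52ff_co: every vertex has degree at least `k` is `∞`-elusive for every `k ≥ 2`. -/

namespace Pool.Agent.Results.MP_3b52ff_co.AllDegrees
open Pool.Agent.Q278.El

/-- For every `k ≥ 2` Seeker has no winning strategy in the game of the property every vertex of
`ℕ` has degree at least `k`. -/
theorem result (k : ℕ) (hk : 2 ≤ k) : InfElusive (MinDeg k) := by
  rintro ⟨σ, hσ⟩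
  obtain ⟨e, c, h1, h2⟩ := Run' k σ
  obtain ⟨hl, hw⟩ := hσ e c h1
  refine core Fin' Low hk ⟨fun n => (hl n).1, ?_, h2⟩ hw
  intro m n hmn
  rcases lt_trichotomy m n with h | h | h
  · exact absurd hmn ((hl n).2 m h)
  · exact h
  · exact absurd hmn.symm ((hl m).2 n h)

end Pool.Agent.Results.MP_3b52ff_co.AllDegrees
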